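import Pool.Agent.N720.SL.Stm
import Pool.Agent.H789R2.FR.Caps

/-!
# Project CY (helper720): the Knapp example (helper521)
-/

set_option autoImplicit false

namespace Pool.Agent.N521.SL.KNAPP

open MeasureTheory Set Metric Complex
open scoped ENNReal NNReal RealInnerProductSpace
open Pool.Agent.H789R2.FR (sg sg_finite sg_ae cap_lower cap_meas)
open Pool.Agent.N720.SL (ex S_KNAPP)

abbrev E (n : ℕ) := EuclideanSpace ℝ (Fin n)

lemma ex_norm (θ : ℝ) : ‖ex θ‖ = 1 := by
  unfold ex
  rw [Complex.norm_exp_ofReal_mul_I]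

lemma ex_add (a b : ℝ) : ex (a + b) = ex a * ex b := by
  unfold ex
  rw [← Complex.exp_add]
  congr 1
  push_cast
  ring

lemma ex_re (θ : ℝ) : (ex θ).re = Real.cos (2 * Real.pi * θ) := by
  unfold ex
  rw [Complex.exp_ofReal_mul_I_re]

lemma ex_cont : Continuous ex := by
  unfold ex
  fun_prop

lemma cos_ge (θ : ℝ) (h : |θ| ≤ 1 / 20) : 1 / 2 ≤ Real.cos (2 * Real.pi * θ) := by
  have h1 := Real.one_sub_sq_div_two_le_cos (x := 2 * Real.pi * θ)
  have h2 : θ ^ 2 ≤ (1 / 20) ^ 2 := by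
    rw [← sq_abs]
    exact pow_le_pow_left₀ (abs_nonneg _) h 2
  have h3 : Real.pi ^ 2 ≤ 16 := by
    have := Real.pi_le_four
    have h0 := Real.pi_pos
    nlinarith
  have h4 : (2 * Real.pi * θ) ^ 2 ≤ 1 := by
    have : (2 * Real.pi * θ) ^ 2 = 4 * (Real.pi ^ 2 * θ ^ 2) := by ring
    rw [this]
    have h5 : Real.pi ^ 2 * θ ^ 2 ≤ 16 * (1 / 20) ^ 2 :=
      mul_le_mul h3 h2 (sq_nonneg _) (by norm_num)
    linarith
  linarith

lemma lower {n : ℕ} (x0 v : E n) (κ : ℝ)
    (h : ∀ x : E n, ‖x‖ = 1 → ‖x0 - x‖ < κ → |⟪x - x0, v⟫| ≤ 1 / 20) :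
    (sg n).real {w | ‖x0 - w‖ < κ} / 2 ≤
      ‖∫ x, (({w : E n | ‖x0 - w‖ < κ}).indicator (fun _ => (1 : ℂ)) x) * ex (-⟪x, v⟫) ∂(sg n)‖ := by
  have := sg_finite n
  set K : Set (E n) := {w : E n | ‖x0 - w‖ < κ} with hK
  have hKm : MeasurableSet K := cap_meas κ x0
  set G : E n → ℂ := fun x => K.indicator (fun _ => (1 : ℂ)) x * ex (-⟪x - x0, v⟫) with hG
  have hGm : Measurable G := by
    refine (measurable_const.indicator hKm).mul ?_
    exact (ex_cont.comp (by fun_prop)).measurable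
  have hGb : ∀ x, ‖G x‖ ≤ 1 := by
    intro x
    rw [hG]
    simp only [norm_mul, ex_norm, mul_one]
    by_cases hx : x ∈ K
    · rw [indicator_of_mem hx]
      simp
    · rw [indicator_of_notMem hx]
      simp
  have hGi : Integrable G (sg n) :=
    Integrable.of_bound hGm.aestronglyMeasurable 1 (Filter.Eventually.of_forall hGb)
  have h1 : ex ⟪x0, v⟫ * ∫ x, (K.indicator (fun _ => (1 : ℂ)) x) * ex (-⟪x, v⟫) ∂(sg n) =
      ∫ x, G x ∂(sg n) := by
    rw [← integral_const_mul]
    refine integral_congr_ae (Filter.Eventually.of_forall fun x => ?_)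
    simp only [hG]
    have : -⟪x - x0, v⟫ = ⟪x0, v⟫ + -⟪x, v⟫ := by
      rw [inner_sub_left]
      ring
    rw [this, ex_add]
    ring
  have h2 : ‖∫ x, (K.indicator (fun _ => (1 : ℂ)) x) * ex (-⟪x, v⟫) ∂(sg n)‖ =
      ‖∫ x, G x ∂(sg n)‖ := by
    rw [← h1, norm_mul, ex_norm, one_mul]
  rw [h2]
  have h3 : (∫ x, G x ∂(sg n)).re = ∫ x, (G x).re ∂(sg n) :=
    (Complex.reCLM.integral_comp_comm hGi).symm
  have h4 : (sg n).real K / 2 = ∫ x, K.indicator (fun _ => (1 / 2 : ℝ)) x ∂(sg n) := by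
    rw [integral_indicator_const _ hKm, smul_eq_mul]
    ring
  have h5 : ∫ x, K.indicator (fun _ => (1 / 2 : ℝ)) x ∂(sg n) ≤ ∫ x, (G x).re ∂(sg n) := by
    refine integral_mono_ae ((integrable_const _).indicator hKm) hGi.re ?_
    filter_upwards [sg_ae n] with x hx
    simp only [hG]
    by_cases hxK : x ∈ K
    · rw [indicator_of_mem hxK, indicator_of_mem hxK, one_mul, ex_re]
      apply cos_ge
      rw [abs_neg]
      exact h x hx hxK
    · rw [indicator_of_notMem hxK, indicator_of_notMem hxK, zero_mul]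
      simp
  rw [h4]
  refine h5.trans ?_
  rw [← h3]
  exact (Complex.abs_re_le_norm _).trans' (le_abs_self _)

/-- the box -/
def box {m : ℕ} (a : Fin m → ℝ) : Set (E m) := {y | ∀ i, y i ∈ Icc (-(a i)) (a i)}

lemma box_meas {m : ℕ} (a : Fin m → ℝ) : MeasurableSet (box a) := by
  have : box a = ⋂ i, {y : E m | y i ∈ Icc (-(a i)) (a i)} := by
    ext y
    simp [box]
  rw [this]
  refine MeasurableSet.iInter fun i => ?_
  exact measurableSet_Icc.preimage (by fun_prop)

lemma box_vol {m : ℕ} (a : Fin m → ℝ) :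
    volume (box a) = ∏ i, ENNReal.ofReal (2 * a i) := by
  have h1 : box a = (MeasurableEquiv.toLp 2 (Fin m → ℝ)).symm ⁻¹'
      (Set.pi univ fun i => Icc (-(a i)) (a i)) := by
    ext y
    constructor
    · intro h i _
      exact h i
    · intro h i
      exact h i (mem_univ i)
  rw [h1, (EuclideanSpace.volume_preserving_symm_measurableEquiv_toLp (Fin m)).measure_preimage
    (MeasurableSet.univ_pi fun i => measurableSet_Icc).nullMeasurableSet, volume_pi_pi]
  refine Finset.prod_congr rfl fun i _ => ?_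
  rw [Real.volume_Icc]
  congr 1
  ring

lemma inner_sphere {n : ℕ} (x x0 : E n) (hx : ‖x‖ = 1) (hx0 : ‖x0‖ = 1) :
    ⟪x - x0, x0⟫ = -(‖x - x0‖ ^ 2 / 2) := by
  have h1 := norm_sub_sq_real x x0
  rw [h1, inner_sub_left, real_inner_self_eq_norm_sq, hx, hx0]
  ring

theorem main : S_KNAPP := by
  intro m k hm hk ι κ horth ν α c hc hν q hq hq2
  rintro ⟨C, hC⟩
  have := sg_finite (m + k)
  obtain ⟨c1, hc1, hcap⟩ := cap_lower (m + k) (by omega)
  let i0 : Fin m := ⟨0, hm⟩
  let y0 : E m := EuclideanSpace.single i0 1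
  have hy0 : ‖y0‖ = 1 := by
    simp [y0]
  set x0 : E (m + k) := ι y0 with hx0d
  have hx0 : ‖x0‖ = 1 := by rw [hx0d, ι.norm_map, hy0]
  have hm0 : (0 : ℝ) < m := by exact_mod_cast hm
  have hmk : (0 : ℝ) < (m : ℝ) + k - 1 := by
    have h1 : (1 : ℝ) ≤ m := by exact_mod_cast hm
    have h2 : (1 : ℝ) ≤ k := by exact_mod_cast hk
    linarith
  -- the exponent
  set e : ℝ := α + m + 1 - ((m : ℝ) + k - 1) * (q / 2) with he
  have he0 : 0 < e := by
    have h1 : ((m : ℝ) + k - 1) * q < ((m : ℝ) + k - 1) * (2 + 2 * (α - k + 2) / ((m : ℝ) + k - 1)) :=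
      mul_lt_mul_of_pos_left hq2 hmk
    have h2 : ((m : ℝ) + k - 1) * (2 + 2 * (α - k + 2) / ((m : ℝ) + k - 1)) =
        2 * (m + 1 + α) := by
      field_simp
      ring
    rw [h2] at h1
    rw [he]
    linarith
  set c' : ℝ := c * (2 ^ m * (1 / (m : ℝ)) ^ (m - 1)) * (2 ^ (-q)) *
    (c1 * (1 / 100) ^ (m + k - 1)) ^ (q / 2) with hc'
  have hc'0 : 0 < c' := by positivity
  have htend := (tendsto_rpow_atTop he0).eventually_gt_atTop ((C : ℝ) / c')
  rw [Filter.eventually_atTop] at htend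
  obtain ⟨R₀, hR₀⟩ := htend
  obtain ⟨R, hR, hνR⟩ := hν (max 1 R₀)
  have hR1 : 1 ≤ R := (le_max_left _ _).trans hR
  have hR0 : 0 < R := by linarith
  have hbig : (C : ℝ) / c' < R ^ e := hR₀ R ((le_max_right _ _).trans hR)
  set r : ℝ := 1 / 100 / R with hr
  have hr0 : 0 < r := by positivity
  have hr1 : r ≤ 1 := by
    rw [hr, div_le_one hR0]
    linarith
  set K : Set (E (m + k)) := {w | ‖x0 - w‖ < r} with hK
  have hKm : MeasurableSet K := cap_meas r x0
  set S : ℝ := (sg (m + k)).real K with hS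
  have hS1 : c1 * r ^ (m + k - 1) ≤ S := hcap r hr0 hr1 x0 hx0
  have hS0 : 0 < S := lt_of_lt_of_le (by positivity) hS1
  let a : Fin m → ℝ := fun i => if i = i0 then R ^ 2 else R / m
  have hmain : ∀ w ∈ ball (0 : E k) R, ∀ y ∈ box a,
      S / 2 ≤ ‖∫ x, (K.indicator (fun _ => (1 : ℂ)) x) * ex (-⟪x, ι y + κ w⟫) ∂(sg (m + k))‖ := by
    intro w hw y hy
    apply lower
    intro x hx hxK
    have hxK' : ‖x - x0‖ < r := by rwa [norm_sub_rev]
    have hwR : ‖w‖ < R := by simpa using hw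
    have hyd : ι y = (y i0) • x0 + ι (y - (y i0) • y0) := by
      rw [hx0d, ← map_smul, ← map_add]
      congr 1
      abel
    have hrR : r * R = 1 / 100 := by
      rw [hr]
      field_simp
    have h1 : |⟪x - x0, κ w⟫| ≤ 1 / 100 := by
      refine (abs_real_inner_le_norm _ _).trans ?_
      rw [κ.norm_map, ← hrR]
      exact mul_le_mul hxK'.le hwR.le (norm_nonneg _) hr0.le
    have h2 : |⟪x - x0, (y i0) • x0⟫| ≤ 1 / 100 := by
      rw [inner_smul_right, inner_sphere x x0 hx hx0, abs_mul, abs_neg]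
      have h3 : |y i0| ≤ R ^ 2 := by
        have := hy i0
        simp only [a, if_pos] at this
        exact abs_le.2 this
      have h4 : |‖x - x0‖ ^ 2 / 2| ≤ r ^ 2 / 2 := by
        rw [abs_of_nonneg (by positivity)]
        have := pow_le_pow_left₀ (norm_nonneg _) hxK'.le 2
        linarith
      have h5 := mul_le_mul h3 h4 (abs_nonneg _) (by positivity)
      refine h5.trans ?_
      have h6 : R ^ 2 * (r ^ 2 / 2) = (r * R) ^ 2 / 2 := by ring
      rw [h6, hrR]
      norm_num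
    have h3 : |⟪x - x0, ι (y - (y i0) • y0)⟫| ≤ 1 / 100 := by
      refine (abs_real_inner_le_norm _ _).trans ?_
      rw [ι.norm_map, ← hrR]
      refine mul_le_mul hxK'.le ?_ (norm_nonneg _) hr0.le
      rw [EuclideanSpace.norm_eq]
      apply Real.sqrt_le_iff.2
      refine ⟨hR0.le, ?_⟩
      have h4 : ∀ i, ‖(y - (y i0) • y0) i‖ ^ 2 ≤ R ^ 2 / m := by
        intro i
        by_cases hi : i = i0
        · subst hi
          have : (y - (y i0) • y0) i0 = 0 := by
            simp [y0]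
          rw [this]
          simp
          positivity
        · have : (y - (y i0) • y0) i = y i := by
            simp [y0, hi]
          rw [this, Real.norm_eq_abs]
          have h5 := hy i
          simp only [a, if_neg hi] at h5
          have h6 : |y i| ≤ R / m := abs_le.2 h5
          have h7 := pow_le_pow_left₀ (abs_nonneg _) h6 2
          refine h7.trans ?_
          rw [div_pow]
          apply div_le_div_of_nonneg_left (by positivity) hm0
          have h1m : (1 : ℝ) ≤ m := by exact_mod_cast hm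
          nlinarith
      refine (Finset.sum_le_sum fun i _ => h4 i).trans ?_
      rw [Finset.sum_const, Finset.card_univ, Fintype.card_fin, nsmul_eq_mul]
      field_simp
      exact le_rfl
    rw [hyd, inner_add_right, inner_add_right]
    have h4 := abs_add_le (⟪x - x0, (y i0) • x0⟫ + ⟪x - x0, ι (y - (y i0) • y0)⟫) ⟪x - x0, κ w⟫
    have h5 := abs_add_le ⟪x - x0, (y i0) • x0⟫ ⟪x - x0, ι (y - (y i0) • y0)⟫
    linarith
  have hineq := hC (K.indicator (fun _ => (1 : ℂ))) (measurable_const.indicator hKm) (by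
    intro x
    by_cases hx : x ∈ K
    · rw [indicator_of_mem hx]
      simp
    · rw [indicator_of_notMem hx]
      simp)
  -- the right side
  have hKS : (sg (m + k)) K = ENNReal.ofReal S := by
    rw [hS, ofReal_measureReal]
  have hright : eLpNorm (K.indicator (fun _ => (1 : ℂ))) 2 (sg (m + k)) ^ q =
      ENNReal.ofReal (S ^ (q / 2)) := by
    rw [eLpNorm_indicator_const hKm two_ne_zero ENNReal.ofNat_ne_top, hKS]
    have h1 : ‖(1 : ℂ)‖ₑ = 1 := by simp
    rw [h1, one_mul, ← ENNReal.rpow_mul, ENNReal.ofReal_rpow_of_pos hS0]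
    congr 2
    simp
    ring
  -- the left side
  have hleft : ENNReal.ofReal ((S / 2) ^ q) * volume (box a) * ν (ball 0 R) ≤
      ∫⁻ w, (∫⁻ y : E m, ‖∫ x, (K.indicator (fun _ => (1 : ℂ)) x) *
        ex (-⟪x, ι y + κ w⟫) ∂(sg (m + k))‖ₑ ^ q) ∂ν := by
    refine le_trans ?_ (setLIntegral_le_lintegral (ball 0 R) _)
    rw [← setLIntegral_const]
    refine setLIntegral_mono' measurableSet_ball fun w hw => ?_
    refine le_trans ?_ (setLIntegral_le_lintegral (box a) _)
    rw [← setLIntegral_const]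
    refine setLIntegral_mono' (box_meas a) fun y hy => ?_
    have h1 := hmain w hw y hy
    have h2 : ENNReal.ofReal (S / 2) ≤ ‖∫ x, (K.indicator (fun _ => (1 : ℂ)) x) *
        ex (-⟪x, ι y + κ w⟫) ∂(sg (m + k))‖ₑ := by
      rw [← ofReal_norm]
      exact ENNReal.ofReal_le_ofReal h1
    rw [← ENNReal.ofReal_rpow_of_pos (by positivity)]
    exact ENNReal.rpow_le_rpow h2 hq.le
  have hvol : volume (box a) = ENNReal.ofReal (2 ^ m * (1 / (m : ℝ)) ^ (m - 1) * R ^ (m + 1)) := by
    rw [box_vol, ← ENNReal.ofReal_prod_of_nonneg]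
    · congr 1
      rw [Finset.prod_mul_distrib, Finset.prod_const, Finset.card_univ, Fintype.card_fin, mul_assoc]
      congr 1
      rw [← Finset.mul_prod_erase Finset.univ a (Finset.mem_univ i0)]
      have h1 : ∏ x ∈ Finset.univ.erase i0, a x = ∏ x ∈ Finset.univ.erase i0, (R / m) := by
        refine Finset.prod_congr rfl fun i hi => ?_
        simp only [a, if_neg (Finset.ne_of_mem_erase hi)]
      rw [h1, Finset.prod_const, Finset.card_erase_of_mem (Finset.mem_univ _), Finset.card_univ,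
        Fintype.card_fin]
      simp only [a, if_pos]
      have h2 : R ^ (m + 1) = R ^ 2 * R ^ (m - 1) := by
        rw [← pow_add]
        congr 1
        omega
      rw [h2, div_pow, div_pow, one_pow]
      ring
    · intro i _
      simp only [a]
      split_ifs <;> positivity
  have hall : ENNReal.ofReal ((S / 2) ^ q * (2 ^ m * (1 / (m : ℝ)) ^ (m - 1) * R ^ (m + 1)) *
      (c * R ^ α)) ≤ ENNReal.ofReal (C * S ^ (q / 2)) := by
    rw [ENNReal.ofReal_mul (by positivity), ENNReal.ofReal_mul (by positivity),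
      ENNReal.ofReal_mul (p := (C : ℝ)) C.coe_nonneg, ENNReal.ofReal_coe_nnreal, ← hright, ← hvol]
    refine le_trans ?_ (hleft.trans hineq)
    gcongr
  rw [ENNReal.ofReal_le_ofReal_iff (by positivity)] at hall
  -- real arithmetic
  have h1 : (S / 2) ^ q = S ^ (q / 2) * S ^ (q / 2) * 2 ^ (-q) := by
    rw [Real.div_rpow hS0.le (by norm_num), ← Real.rpow_add hS0, Real.rpow_neg (by norm_num)]
    rw [add_halves]
    rfl
  have hSq : 0 < S ^ (q / 2) := Real.rpow_pos_of_pos hS0 _
  have h2 : S ^ (q / 2) * (2 ^ (-q) * (2 ^ m * (1 / (m : ℝ)) ^ (m - 1) * R ^ (m + 1)) *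
      (c * R ^ α)) ≤ C := by
    have h3 : (S / 2) ^ q * (2 ^ m * (1 / (m : ℝ)) ^ (m - 1) * R ^ (m + 1)) * (c * R ^ α) =
        (S ^ (q / 2) * (2 ^ (-q) * (2 ^ m * (1 / (m : ℝ)) ^ (m - 1) * R ^ (m + 1)) *
      (c * R ^ α))) * S ^ (q / 2) := by
      rw [h1]
      ring
    rw [h3] at hall
    exact le_of_mul_le_mul_right hall hSq
  have h4 : (c1 * (1 / 100) ^ (m + k - 1)) ^ (q / 2) * R ^ (-(((m : ℝ) + k - 1) * (q / 2))) ≤
      S ^ (q / 2) := by
    have h5 : (c1 * (1 / 100) ^ (m + k - 1)) ^ (q / 2) * R ^ (-(((m : ℝ) + k - 1) * (q / 2))) =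
        (c1 * r ^ (m + k - 1)) ^ (q / 2) := by
      have h55 : c1 * r ^ (m + k - 1) = (c1 * (1 / 100) ^ (m + k - 1)) / R ^ (m + k - 1) := by
        rw [hr, div_pow (1 / 100) R]
        ring
      rw [h55, Real.div_rpow (by positivity) (by positivity),
        Real.rpow_neg hR0.le, ← Real.rpow_natCast R (m + k - 1), ← Real.rpow_mul hR0.le]
      rw [Nat.cast_sub (by omega)]
      push_cast
      rfl
    rw [h5]
    exact Real.rpow_le_rpow (by positivity) hS1 (by positivity)
  have h6 : c' * R ^ e ≤ C := by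
    refine le_trans (le_of_eq ?_) ((mul_le_mul_of_nonneg_right h4 (by positivity)).trans h2)
    have h7 : R ^ e = R ^ (-(((m : ℝ) + k - 1) * (q / 2))) * R ^ (m + 1) * R ^ α := by
      rw [← Real.rpow_natCast R (m + 1), ← Real.rpow_add hR0, ← Real.rpow_add hR0]
      congr 1
      rw [he]
      push_cast
      ring
    rw [h7, hc']
    ring
  rw [div_lt_iff₀ hc'0] at hbig
  linarith

end Pool.Agent.N521.SL.KNAPP
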